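import Pool.Agent.E8helper57.AV.Stm

/-!
Project AV (`MP_f73b56_co`), piece END: the budget at the end of an arc.
-/

set_option autoImplicit false

namespace Pool.Agent.E8helper55.AV

open Finset Pool.Agent.E8helper57.AV

variable {n : ℕ}

lemma rank_lt_of {S : Finset (Fin n)} {a b : Fin n} (ha : a ∈ S) (h : a < b) :
    (S.filter fun d => d < a).card < (S.filter fun d => d < b).card := by
  apply Finset.card_lt_card
  rw [Finset.ssubset_iff_of_subset]
  · exact ⟨a, by simp [h, ha], by simp⟩
  · intro d hd
    simp only [mem_filter] at hd ⊢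
    exact ⟨hd.1, hd.2.trans h⟩

lemma rank_injOn (S : Finset (Fin n)) :
    Set.InjOn (fun s : Fin n => (S.filter fun d => d < s).card) (S : Set (Fin n)) := by
  intro a ha b hb hab
  rcases lt_trichotomy a b with h | h | h
  · exact absurd hab (rank_lt_of (mem_coe.mp ha) h).ne
  · exact h
  · exact absurd hab (rank_lt_of (mem_coe.mp hb) h).ne'

lemma rank_lt_card {S : Finset (Fin n)} {a : Fin n} (ha : a ∈ S) :
    (S.filter fun d => d < a).card < S.card := by
  apply Finset.card_lt_card
  rw [Finset.ssubset_iff_of_subset (filter_subset _ _)]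
  exact ⟨a, ha, by simp⟩

lemma card_rank_lt (S : Finset (Fin n)) (m : ℕ) :
    (S.filter fun s => (S.filter fun d => d < s).card < m).card = min S.card m := by
  have him : S.image (fun s => (S.filter fun d => d < s).card) = range S.card := by
    apply Finset.eq_of_subset_of_card_le
    · intro x hx
      obtain ⟨s, hs, rfl⟩ := mem_image.mp hx
      exact mem_range.mpr (rank_lt_card hs)
    · rw [card_range, Finset.card_image_of_injOn (rank_injOn S)]
  have h1 : (S.filter fun s => (S.filter fun d => d < s).card < m).image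
      (fun s => (S.filter fun d => d < s).card) = (range S.card).filter (· < m) := by
    rw [← him, Finset.filter_image]
  have h2 : (range S.card).filter (· < m) = range (min S.card m) := by
    ext x; simp
  rw [← Finset.card_range (min S.card m), ← h2, ← h1, Finset.card_image_of_injOn]
  exact (rank_injOn S).mono (fun x hx => mem_coe.mpr (mem_filter.mp (mem_coe.mp hx)).1)

lemma rrank_lt_of {S : Finset (Fin n)} {a b : Fin n} (hb : b ∈ S) (h : a < b) :
    (S.filter fun d => b < d).card < (S.filter fun d => a < d).card := by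
  apply Finset.card_lt_card
  rw [Finset.ssubset_iff_of_subset]
  · exact ⟨b, by simp [h, hb], by simp⟩
  · intro d hd
    simp only [mem_filter] at hd ⊢
    exact ⟨hd.1, h.trans hd.2⟩

lemma rrank_injOn (S : Finset (Fin n)) :
    Set.InjOn (fun s : Fin n => (S.filter fun d => s < d).card) (S : Set (Fin n)) := by
  intro a ha b hb hab
  rcases lt_trichotomy a b with h | h | h
  · exact absurd hab (rrank_lt_of (mem_coe.mp hb) h).ne'
  · exact h
  · exact absurd hab (rrank_lt_of (mem_coe.mp ha) h).ne

lemma rrank_lt_card {S : Finset (Fin n)} {a : Fin n} (ha : a ∈ S) :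
    (S.filter fun d => a < d).card < S.card := by
  apply Finset.card_lt_card
  rw [Finset.ssubset_iff_of_subset (filter_subset _ _)]
  exact ⟨a, ha, by simp⟩

/-- the number of indices less than `s` -/
lemma card_lt_eq (s : Fin n) : (univ.filter fun d : Fin n => d < s).card = s.val := by
  have h : (univ.filter fun d : Fin n => d < s) = Iio s := by
    ext d; simp
  rw [h, Fin.card_Iio]

/-- splitting of the indices less than `s` by a predicate -/
lemma split_lt (s : Fin n) (p : Fin n → Prop) [DecidablePred p] :
    (univ.filter fun d : Fin n => d < s ∧ p d).card +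
      (univ.filter fun d : Fin n => d < s ∧ ¬ p d).card = s.val := by
  rw [← card_lt_eq s, ← Finset.card_filter_add_card_filter_not (s := univ.filter fun d : Fin n => d < s) p,
    Finset.filter_filter, Finset.filter_filter]

/-- F1 -/
lemma outA_le (k : ℕ) (P : Fin n → Bool) (c : Fin n) :
    outA k P c + (k + 1 - c.val) ≤ k + 1 - (univ.filter fun d : Fin n => d < c ∧ P d).card := by
  set out := (univ.filter fun d : Fin n => d < c ∧ P d).card with hout
  set S := univ.filter fun d : Fin n => d < c ∧ ¬ P d with hS
  have hsum : out + S.card = c.val := split_lt c (fun d => (P d : Prop))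
  have hle : outA k P c ≤ min S.card (k + 1 - out) := by
    rw [← card_rank_lt S (k + 1 - out)]
    unfold outA
    apply Finset.card_le_card
    intro s hs
    simp only [mem_filter, mem_univ, true_and] at hs
    obtain ⟨h1, h2, h3, h4⟩ := hs
    have hsS : s ∈ S := by simp [hS, h1, h3]
    rw [mem_filter]
    refine ⟨hsS, ?_⟩
    have e1 : (S.filter fun d => d < s) = univ.filter fun d : Fin n => d < s ∧ ¬ P d := by
      ext d
      simp only [hS, mem_filter, mem_univ, true_and]
      constructor
      · rintro ⟨⟨a, b⟩, e⟩; exact ⟨e, b⟩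
      · rintro ⟨e, b⟩; exact ⟨⟨e.trans h1, b⟩, e⟩
    have e2 := split_lt s (fun d => (P d : Prop))
    have e3 : out = (univ.filter fun d : Fin n => d < s ∧ P d).card +
        (univ.filter fun d : Fin n => s < d ∧ d < c ∧ P d).card := by
      rw [hout, ← Finset.card_union_of_disjoint]
      · congr 1
        ext d
        simp only [mem_filter, mem_univ, true_and, mem_union]
        constructor
        · rintro ⟨a, b⟩
          rcases lt_trichotomy d s with h | h | h
          · exact Or.inl ⟨h, b⟩
          · subst h; simp [h3] at b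
          · exact Or.inr ⟨h, a, b⟩
        · rintro (⟨a, b⟩ | ⟨a, b, e⟩)
          · exact ⟨a.trans h1, b⟩
          · exact ⟨b, e⟩
      · rw [Finset.disjoint_left]
        intro d hd hd'
        simp only [mem_filter, mem_univ, true_and] at hd hd'
        exact absurd hd.1 (not_lt.mpr hd'.1.le)
    rw [e1]
    omega
  omega

/-- the arcs met by the line inwards from `c`, other than `c` -/
def inn (P Q : Fin n → Bool) (c : Fin n) : ℕ :=
  (univ.filter fun d : Fin n => (c < d ∧ (P d ∨ Q d)) ∨ (d < c ∧ Q d)).card

/-- F2 -/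
lemma inA_le (k : ℕ) (P Q : Fin n → Bool) (c : Fin n) (hQ : Q c = false) :
    inA k P Q c ≤ k + 1 - inn P Q c := by
  set S := univ.filter fun d : Fin n => d < c ∧ ¬ Q d with hS
  have hle : inA k P Q c ≤ min S.card (k + 1 - inn P Q c) := by
    rw [← card_rank_lt S (k + 1 - inn P Q c)]
    unfold inA
    simp only [hQ, Bool.false_eq_true, if_false]
    apply Finset.card_le_card
    intro s hs
    simp only [mem_filter, mem_univ, true_and] at hs
    obtain ⟨h1, h2, h3, h4⟩ := hs
    have hsS : s ∈ S := by simp [hS, h1, h3]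
    rw [mem_filter]
    refine ⟨hsS, ?_⟩
    have e1 : (S.filter fun d => d < s) = univ.filter fun d : Fin n => d < s ∧ ¬ Q d := by
      ext d
      simp only [hS, mem_filter, mem_univ, true_and]
      constructor
      · rintro ⟨⟨a, b⟩, e⟩; exact ⟨e, b⟩
      · rintro ⟨e, b⟩; exact ⟨⟨e.trans h1, b⟩, e⟩
    have e2 := split_lt s (fun d => (Q d : Prop))
    have e3 : inn P Q c = (univ.filter fun d : Fin n => d < s ∧ Q d).card +
        (univ.filter fun d : Fin n => s < d ∧ d ≠ c ∧ (Q d ∨ (c < d ∧ P d))).card := by
      rw [inn, ← Finset.card_union_of_disjoint]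
      · congr 1
        ext d
        simp only [mem_filter, mem_univ, true_and, mem_union]
        constructor
        · rintro (⟨a, b⟩ | ⟨a, b⟩)
          · right
            refine ⟨h1.trans a, a.ne', ?_⟩
            rcases b with b | b
            · exact Or.inr ⟨a, b⟩
            · exact Or.inl b
          · rcases lt_trichotomy d s with h | h | h
            · exact Or.inl ⟨h, b⟩
            · subst h; simp [h3] at b
            · exact Or.inr ⟨h, a.ne, Or.inl b⟩
        · rintro (⟨a, b⟩ | ⟨a, b, e⟩)
          · exact Or.inr ⟨a.trans h1, b⟩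
          · rcases e with e | ⟨e, e'⟩
            · rcases lt_or_gt_of_ne b with h | h
              · exact Or.inr ⟨h, e⟩
              · exact Or.inl ⟨h, Or.inr e⟩
            · exact Or.inl ⟨e, Or.inl e'⟩
      · rw [Finset.disjoint_left]
        intro d hd hd'
        simp only [mem_filter, mem_univ, true_and] at hd hd'
        exact absurd hd.1 (not_lt.mpr hd'.1.le)
    rw [e1]
    omega
  omega

/-- the blockers of `(p, q)` -/
def Bl (P Q : Fin n → Bool) (c p q : Fin n) : Finset (Fin n) :=
  if P q ∧ c < q then univ.filter fun d : Fin n => p < d ∧ d < q ∧ P d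
  else univ.filter fun d : Fin n => d ≠ p ∧ d ≠ q ∧ ((p < d ∧ P d) ∨ (q < d ∧ Q d))

/-- the new relations -/
def New (k : ℕ) (P Q : Fin n → Bool) (c p q : Fin n) : Prop :=
  p < c ∧ P p ∧ q ≠ p ∧ q ≠ c ∧ (Bl P Q c p q).card = k + 1 ∧ c ∈ Bl P Q c p q ∧
    ((P q ∧ c < q) ∨ (Q q ∧ ¬ (p < q ∧ P q)))

instance (k : ℕ) (P Q : Fin n → Bool) (c p q : Fin n) : Decidable (New k P Q c p q) := by
  unfold New; infer_instance

lemma new_unique_aux {k : ℕ} {P Q : Fin n → Bool} {c p q q' : Fin n}
    (h : New k P Q c p q) (h' : New k P Q c p q')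
    (hs : insert q (Bl P Q c p q) ⊆ Bl P Q c p q') : False := by
  have h1 := card_le_card hs
  have h2 : q ∉ Bl P Q c p q := by
    unfold Bl
    split_ifs <;> simp
  rw [card_insert_of_notMem h2, h.2.2.2.2.1, h'.2.2.2.2.1] at h1
  omega

lemma new_unique {k : ℕ} {P Q : Fin n → Bool} {c p q q' : Fin n}
    (h : New k P Q c p q) (h' : New k P Q c p q') : q = q' := by
  by_contra hne
  -- the comparison lemma: first kind against second kind
  have key12 : ∀ {q q' : Fin n}, New k P Q c p q → New k P Q c p q' → (P q ∧ c < q) →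
      ¬ (P q' ∧ c < q') → False := by
    intro q q' h h' hq hq'
    apply new_unique_aux h h'
    intro d hd
    obtain ⟨hpc, hPp, h1, h2, h3, h4, h5⟩ := h
    obtain ⟨-, -, h1', h2', h3', h4', h5'⟩ := h'
    have h6 := h5'.resolve_left hq'
    rw [Bl, if_neg hq']
    simp only [mem_filter, mem_univ, true_and]
    rcases mem_insert.mp hd with rfl | hd
    · refine ⟨h1, ?_, Or.inl ⟨hpc.trans hq.2, hq.1⟩⟩
      rintro rfl
      exact hq' hq
    · rw [Bl, if_pos hq] at hd
      simp only [mem_filter, mem_univ, true_and] at hd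
      refine ⟨hd.1.ne', ?_, Or.inl ⟨hd.1, hd.2.2⟩⟩
      rintro rfl
      exact h6.2 ⟨hd.1, hd.2.2⟩
  have key11 : ∀ {q q' : Fin n}, New k P Q c p q → New k P Q c p q' → (P q ∧ c < q) →
      (P q' ∧ c < q') → q < q' → False := by
    intro q q' h h' hq hq' hlt
    apply new_unique_aux h h'
    intro d hd
    rw [Bl, if_pos hq']
    simp only [mem_filter, mem_univ, true_and]
    rcases mem_insert.mp hd with rfl | hd
    · exact ⟨h.1.trans hq.2, hlt, hq.1⟩
    · rw [Bl, if_pos hq] at hd
      simp only [mem_filter, mem_univ, true_and] at hd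
      exact ⟨hd.1, hd.2.1.trans hlt, hd.2.2⟩
  have key22 : ∀ {q q' : Fin n}, New k P Q c p q → New k P Q c p q' → ¬ (P q ∧ c < q) →
      ¬ (P q' ∧ c < q') → q' < q → False := by
    intro q q' h h' hq hq' hlt
    apply new_unique_aux h h'
    intro d hd
    obtain ⟨hpc, hPp, h1, h2, h3, h4, h5⟩ := h
    obtain ⟨-, -, h1', h2', h3', h4', h5'⟩ := h'
    have h6 := h5'.resolve_left hq'
    have h7 := h5.resolve_left hq
    rw [Bl, if_neg hq']
    simp only [mem_filter, mem_univ, true_and]
    rcases mem_insert.mp hd with rfl | hd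
    · exact ⟨h1, hlt.ne', Or.inr ⟨hlt, h7.1⟩⟩
    · rw [Bl, if_neg hq] at hd
      simp only [mem_filter, mem_univ, true_and] at hd
      obtain ⟨e1, e2, e3⟩ := hd
      refine ⟨e1, ?_, ?_⟩
      · rintro rfl
        rcases e3 with e3 | e3
        · exact h6.2 e3
        · exact absurd e3.1 (not_lt.mpr hlt.le)
      · rcases e3 with e3 | e3
        · exact Or.inl e3
        · exact Or.inr ⟨hlt.trans e3.1, e3.2⟩
  by_cases hq : P q ∧ c < q
  · by_cases hq' : P q' ∧ c < q'
    · rcases lt_or_gt_of_ne hne with hlt | hlt
      · exact key11 h h' hq hq' hlt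
      · exact key11 h' h hq' hq hlt
    · exact key12 h h' hq hq'
  · by_cases hq' : P q' ∧ c < q'
    · exact key12 h' h hq' hq
    · rcases lt_or_gt_of_ne hne with hlt | hlt
      · exact key22 h' h hq' hq hlt
      · exact key22 h h' hq hq' hlt

/-- `f p` -/
def ff (P : Fin n → Bool) (c p : Fin n) : ℕ :=
  ((univ.filter fun d : Fin n => d < c ∧ P d).filter fun d => p < d).card

lemma new_ff_le {k : ℕ} {P Q : Fin n → Bool} {c p q : Fin n} (hP : P c = true)
    (h : New k P Q c p q) : ff P c p ≤ k := by
  obtain ⟨hpc, hPp, h1, h2, h3, h4, h5⟩ := h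
  have hsub : insert c ((univ.filter fun d : Fin n => d < c ∧ P d).filter fun d => p < d) ⊆
      Bl P Q c p q := by
    intro d hd
    rcases mem_insert.mp hd with rfl | hd
    · exact h4
    · simp only [mem_filter, mem_univ, true_and] at hd
      obtain ⟨⟨e1, e2⟩, e3⟩ := hd
      by_cases hq : P q ∧ c < q
      · rw [Bl, if_pos hq]
        simp only [mem_filter, mem_univ, true_and]
        exact ⟨e3, e1.trans hq.2, e2⟩
      · have h6 := h5.resolve_left hq
        rw [Bl, if_neg hq]
        simp only [mem_filter, mem_univ, true_and]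
        refine ⟨e3.ne', ?_, Or.inl ⟨e3, e2⟩⟩
        rintro rfl
        exact h6.2 ⟨e3, e2⟩
  have := card_le_card hsub
  rw [card_insert_of_notMem (by simp), h3] at this
  unfold ff
  omega

lemma new_le_ff {k : ℕ} {P Q : Fin n → Bool} {c p q : Fin n}
    (h : New k P Q c p q) : k + 1 ≤ ff P c p + inn P Q c := by
  obtain ⟨hpc, hPp, h1, h2, h3, h4, h5⟩ := h
  set I := univ.filter fun d : Fin n => (c < d ∧ (P d ∨ Q d)) ∨ (d < c ∧ Q d) with hI
  have hqI : q ∈ I := by
    simp only [hI, mem_filter, mem_univ, true_and]
    rcases h5 with h5 | h5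
    · exact Or.inl ⟨h5.2, Or.inl h5.1⟩
    · rcases lt_or_gt_of_ne h2 with hlt | hlt
      · exact Or.inr ⟨hlt, h5.1⟩
      · exact Or.inl ⟨hlt, Or.inr h5.1⟩
  have hsub : Bl P Q c p q ⊆
      insert c (((univ.filter fun d : Fin n => d < c ∧ P d).filter fun d => p < d) ∪
        I.erase q) := by
    intro d hd
    rw [mem_insert, mem_union, mem_erase]
    rcases lt_trichotomy d c with hdc | hdc | hdc
    · right
      simp only [hI, mem_filter, mem_univ, true_and]
      by_cases hq : P q ∧ c < q
      · rw [Bl, if_pos hq] at hd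
        simp only [mem_filter, mem_univ, true_and] at hd
        exact Or.inl ⟨⟨hdc, hd.2.2⟩, hd.1⟩
      · rw [Bl, if_neg hq] at hd
        simp only [mem_filter, mem_univ, true_and] at hd
        obtain ⟨e1, e2, e3⟩ := hd
        rcases e3 with e3 | e3
        · exact Or.inl ⟨⟨hdc, e3.2⟩, e3.1⟩
        · exact Or.inr ⟨e2, Or.inr ⟨hdc, e3.2⟩⟩
    · exact Or.inl hdc
    · right
      right
      simp only [hI, mem_filter, mem_univ, true_and]
      by_cases hq : P q ∧ c < q
      · rw [Bl, if_pos hq] at hd
        simp only [mem_filter, mem_univ, true_and] at hd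
        exact ⟨hd.2.1.ne, Or.inl ⟨hdc, Or.inl hd.2.2⟩⟩
      · rw [Bl, if_neg hq] at hd
        simp only [mem_filter, mem_univ, true_and] at hd
        obtain ⟨e1, e2, e3⟩ := hd
        rcases e3 with e3 | e3
        · exact ⟨e2, Or.inl ⟨hdc, Or.inl e3.2⟩⟩
        · exact ⟨e2, Or.inl ⟨hdc, Or.inr e3.2⟩⟩
  have h7 := card_le_card hsub
  have h8 := (card_insert_le c (((univ.filter fun d : Fin n => d < c ∧ P d).filter
    fun d => p < d) ∪ I.erase q))
  have h9 := card_union_le ((univ.filter fun d : Fin n => d < c ∧ P d).filter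
    fun d => p < d) (I.erase q)
  have h10 := card_erase_add_one hqI
  rw [h3] at h7
  unfold ff inn
  rw [← hI]
  omega

/-- the number of the new relations -/
lemma card_new_le (k : ℕ) (P Q : Fin n → Bool) (c : Fin n) (hP : P c = true) :
    (univ.filter fun x : Fin n × Fin n => New k P Q c x.1 x.2).card ≤
      min (k + 1) (univ.filter fun d : Fin n => d < c ∧ P d).card - (k + 1 - inn P Q c) := by
  set T := univ.filter fun x : Fin n × Fin n => New k P Q c x.1 x.2 with hT
  set out := (univ.filter fun d : Fin n => d < c ∧ P d).card with hout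
  have hinj : Set.InjOn (fun x : Fin n × Fin n => ff P c x.1) (T : Set (Fin n × Fin n)) := by
    intro x hx y hy hxy
    have hx' : New k P Q c x.1 x.2 := by
      have := mem_coe.mp hx
      rw [hT, mem_filter] at this
      exact this.2
    have hy' : New k P Q c y.1 y.2 := by
      have := mem_coe.mp hy
      rw [hT, mem_filter] at this
      exact this.2
    have h1 : x.1 = y.1 := by
      apply rrank_injOn (univ.filter fun d : Fin n => d < c ∧ P d)
      · simp only [coe_filter, mem_univ, true_and, Set.mem_ofPred_eq]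
        exact ⟨hx'.1, hx'.2.1⟩
      · simp only [coe_filter, mem_univ, true_and, Set.mem_ofPred_eq]
        exact ⟨hy'.1, hy'.2.1⟩
      · exact hxy
    have h2 : x.2 = y.2 := by
      rw [← h1] at hy'
      exact new_unique hx' hy'
    exact Prod.ext h1 h2
  have hsub : T.image (fun x : Fin n × Fin n => ff P c x.1) ⊆
      Ico (k + 1 - inn P Q c) (min (k + 1) out) := by
    intro i hi
    obtain ⟨x, hx, rfl⟩ := mem_image.mp hi
    rw [hT, mem_filter] at hx
    have h1 := new_ff_le hP hx.2
    have h2 := new_le_ff hx.2
    have h3 : ff P c x.1 < out := by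
      rw [hout]
      apply rrank_lt_card
      simp only [mem_filter, mem_univ, true_and]
      exact ⟨hx.2.1, hx.2.2.1⟩
    rw [mem_Ico]
    omega
  have := card_le_card hsub
  rw [card_image_of_injOn hinj, Nat.card_Ico] at this
  exact this

/-- the first kind of new relations -/
lemma new_of_one {k : ℕ} {P Q : Fin n → Bool} {c a b : Fin n} (hab : a < b)
    (h0 : see k P Q a b = false) (h1 : see k (Function.update P c false) Q a b = true) :
    New k P Q c a b := by
  unfold see at h0 h1
  have hac : a ≠ c := by
    rintro rfl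
    simp at h1
  have hP' : ∀ d, Function.update P c false d = (if d = c then false else P d) := by
    intro d
    by_cases h : d = c
    · subst h; simp
    · simp [h]
  have hPa : P a = true := by
    by_contra hPa
    simp [hP', hac, hPa] at h1
  -- the blocker counts
  set A := univ.filter fun d : Fin n => a < d ∧ d < b ∧ P d with hA
  set B := univ.filter fun d : Fin n => d ≠ a ∧ d ≠ b ∧ ((a < d ∧ P d) ∨ (b < d ∧ Q d)) with hB
  set A' := univ.filter fun d : Fin n => a < d ∧ d < b ∧ Function.update P c false d = true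
    with hA'
  set B' := univ.filter fun d : Fin n => d ≠ a ∧ d ≠ b ∧
    ((a < d ∧ Function.update P c false d = true) ∨ (b < d ∧ Q d)) with hB'
  have hAA : A ⊆ insert c A' := by
    intro d hd
    simp only [hA, hA', mem_insert, mem_filter, mem_univ, true_and, hP'] at hd ⊢
    by_cases hdc : d = c
    · exact Or.inl hdc
    · right; simpa [hdc] using hd
  have hBB : B ⊆ insert c B' := by
    intro d hd
    simp only [hB, hB', mem_insert, mem_filter, mem_univ, true_and, hP'] at hd ⊢
    by_cases hdc : d = c
    · exact Or.inl hdc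
    · right; simpa [hdc] using hd
  have hAB : A' ⊆ B' := by
    intro d hd
    simp only [hA', hB', mem_filter, mem_univ, true_and] at hd ⊢
    exact ⟨hd.1.ne', hd.2.1.ne, Or.inl ⟨hd.1, hd.2.2⟩⟩
  have hcA := card_insert_le c A'
  have hcB := card_insert_le c B'
  have hlA := card_le_card hAA
  have hlB := card_le_card hBB
  have hlAB := card_le_card hAB
  -- if `c` is not in the set then the sets do not change
  have hcA' : c ∉ A → A.card ≤ A'.card := by
    intro hc
    apply card_le_card
    intro d hd
    rcases mem_insert.mp (hAA hd) with h | h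
    · exact absurd (h ▸ hd) hc
    · exact h
  have hcB' : c ∉ B → B.card ≤ B'.card := by
    intro hc
    apply card_le_card
    intro d hd
    rcases mem_insert.mp (hBB hd) with h | h
    · exact absurd (h ▸ hd) hc
    · exact h
  rw [hPa] at h0
  simp only [Bool.true_and, Bool.or_eq_false_iff, Bool.and_eq_false_iff, decide_eq_false_iff_not,
    not_le] at h0
  obtain ⟨h0P, h0Q⟩ := h0
  rw [hP' a, if_neg hac, hPa] at h1
  simp only [Bool.true_and, Bool.or_eq_true, Bool.and_eq_true, decide_eq_true_eq] at h1
  -- same side or cross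
  by_cases hPb : P b = true ∧ b ≠ c
  · have hA1 : k < A.card := by
      rcases h0P with h | h
      · rw [hPb.1] at h; exact absurd h (by decide)
      · exact h
    have hA2 : A'.card ≤ k := by
      rcases h1 with h | h
      · exact h.2
      · exact hlAB.trans h.2
    have hcmem : c ∈ A := by
      by_contra hc
      have := hcA' hc
      omega
    have hcm := hcmem
    simp only [hA, mem_filter, mem_univ, true_and] at hcm
    have hbl : Bl P Q c a b = A := by
      rw [Bl, if_pos ⟨hPb.1, hcm.2.1⟩]
    refine ⟨hcm.1, hPa, hab.ne', hPb.2, ?_, ?_, Or.inl ⟨hPb.1, hcm.2.1⟩⟩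
    · rw [hbl]; omega
    · rw [hbl]; exact hcmem
  · have h1' : Q b = true ∧ B'.card ≤ k := by
      rcases h1 with h | h
      · exfalso
        apply hPb
        have h2 := h.1
        rw [hP'] at h2
        by_cases hbc : b = c
        · simp [hbc] at h2
        · rw [if_neg hbc] at h2
          exact ⟨h2, hbc⟩
      · exact h
    have hB1 : k < B.card := by
      rcases h0Q with h | h
      · rw [h1'.1] at h; exact absurd h (by decide)
      · exact h
    have hcmem : c ∈ B := by
      by_contra hc
      have := hcB' hc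
      omega
    have hcm := hcmem
    simp only [hB, mem_filter, mem_univ, true_and] at hcm
    have hbc : b ≠ c := Ne.symm hcm.2.1
    have hPb' : ¬ P b = true := fun h => hPb ⟨h, hbc⟩
    have hbl : Bl P Q c a b = B := by
      rw [Bl, if_neg (fun h => hPb' h.1)]
    have hac' : a < c := by
      rcases hcm.2.2 with h | h
      · exact h.1
      · exact hab.trans h.1
    refine ⟨hac', hPa, hab.ne', hbc, ?_, ?_, Or.inr ⟨h1'.1, fun h => hPb' h.2⟩⟩
    · rw [hbl]; omega
    · rw [hbl]; exact hcmem

/-- the second kind of new relations -/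
lemma new_of_two {k : ℕ} {P Q : Fin n → Bool} {c a b : Fin n} (hab : a < b)
    (h0 : see k Q P a b = false) (h1 : see k Q (Function.update P c false) a b = true) :
    New k P Q c b a := by
  unfold see at h0 h1
  have hP' : ∀ d, Function.update P c false d = (if d = c then false else P d) := by
    intro d
    by_cases h : d = c
    · subst h; simp
    · simp [h]
  have hQa : Q a = true := by
    by_contra hQa
    simp [hQa] at h1
  rw [hQa] at h0 h1
  simp only [Bool.true_and, Bool.or_eq_false_iff, Bool.and_eq_false_iff, decide_eq_false_iff_not,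
    not_le] at h0
  simp only [Bool.true_and, Bool.or_eq_true, Bool.and_eq_true, decide_eq_true_eq] at h1
  obtain ⟨h0Q, h0P⟩ := h0
  set B := univ.filter fun d : Fin n => d ≠ a ∧ d ≠ b ∧ ((a < d ∧ Q d) ∨ (b < d ∧ P d)) with hB
  set B' := univ.filter fun d : Fin n => d ≠ a ∧ d ≠ b ∧
    ((a < d ∧ Q d) ∨ (b < d ∧ Function.update P c false d = true)) with hB'
  have h1' : Function.update P c false b = true ∧ B'.card ≤ k := by
    rcases h1 with h | h
    · exfalso
      rcases h0Q with h' | h'
      · rw [h.1] at h'; exact absurd h' (by decide)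
      · exact absurd h.2 (not_le.mpr h')
    · exact h
  have hbc : b ≠ c := by
    intro h
    have h2 := h1'.1
    rw [hP', if_pos h] at h2
    exact absurd h2 (by decide)
  have hPb : P b = true := by
    have h2 := h1'.1
    rwa [hP', if_neg hbc] at h2
  have hB1 : k < B.card := by
    rcases h0P with h | h
    · rw [hPb] at h; exact absurd h (by decide)
    · exact h
  have hBB : B ⊆ insert c B' := by
    intro d hd
    simp only [hB, hB', mem_insert, mem_filter, mem_univ, true_and, hP'] at hd ⊢
    by_cases hdc : d = c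
    · exact Or.inl hdc
    · right; simpa [hdc] using hd
  have hcB := card_insert_le c B'
  have hlB := card_le_card hBB
  have hcmem : c ∈ B := by
    by_contra hc
    have : B.card ≤ B'.card := by
      apply card_le_card
      intro d hd
      rcases mem_insert.mp (hBB hd) with h | h
      · exact absurd (h ▸ hd) hc
      · exact h
    omega
  have hcn : c ∉ B' ∨ c ∈ B' := (em _).symm
  have hcnB' : c ∉ B' := by
    intro hc
    have : B.card ≤ B'.card := by
      apply card_le_card
      intro d hd
      rcases mem_insert.mp (hBB hd) with h | h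
      · exact h ▸ hc
      · exact h
    omega
  have hcm := hcmem
  simp only [hB, mem_filter, mem_univ, true_and] at hcm
  have hb' : b < c := by
    simp only [hB', mem_filter, mem_univ, true_and, hP'] at hcnB'
    rcases hcm.2.2 with h | h
    · exact absurd ⟨hcm.1, hcm.2.1, Or.inl h⟩ hcnB'
    · exact h.1
  have hneg : ¬ (P a = true ∧ c < a) := fun h => absurd (hab.trans hb') (not_lt.mpr h.2.le)
  have hbl : Bl P Q c b a = B := by
    rw [Bl, if_neg hneg, hB]
    ext d
    simp only [mem_filter, mem_univ, true_and]
    tauto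
  refine ⟨hb', hPb, hab.ne, Ne.symm hcm.1, ?_, ?_, Or.inr ⟨hQa, fun h => absurd hab
    (not_lt.mpr h.1.le)⟩⟩
  · rw [hbl]; omega
  · rw [hbl]; exact hcmem

lemma nw_add_le (k : ℕ) (P Q : Fin n → Bool) (c : Fin n) :
    nw k P Q (Function.update P c false) Q + nw k Q P Q (Function.update P c false) ≤
      (univ.filter fun x : Fin n × Fin n => New k P Q c x.1 x.2).card := by
  unfold nw
  set S1 := univ.filter fun x : Fin n × Fin n => x.1 < x.2 ∧ see k P Q x.1 x.2 = false ∧
    see k (Function.update P c false) Q x.1 x.2 = true with hS1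
  set S2 := univ.filter fun x : Fin n × Fin n => x.1 < x.2 ∧ see k Q P x.1 x.2 = false ∧
    see k Q (Function.update P c false) x.1 x.2 = true with hS2
  have h2 : (S2.image Prod.swap).card = S2.card :=
    card_image_of_injective _ Prod.swap_injective
  rw [← h2, ← card_union_of_disjoint]
  · apply card_le_card
    intro x hx
    rw [mem_filter]
    refine ⟨mem_univ _, ?_⟩
    rcases mem_union.mp hx with h | h
    · rw [hS1, mem_filter] at h
      exact new_of_one h.2.1 h.2.2.1 h.2.2.2
    · obtain ⟨y, hy, rfl⟩ := mem_image.mp h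
      rw [hS2, mem_filter] at hy
      exact new_of_two hy.2.1 hy.2.2.1 hy.2.2.2
  · rw [disjoint_left]
    intro x hx hx'
    obtain ⟨y, hy, rfl⟩ := mem_image.mp hx'
    rw [hS2, mem_filter] at hy
    rw [hS1, mem_filter] at hx
    exact absurd hx.2.1 (not_lt.mpr hy.2.1.le)

/-- the arcs absent from the whole line -/
lemma dsc_ge (k : ℕ) (P Q : Fin n → Bool) (c : Fin n) (hQ : Q c = false) :
    min (univ.filter fun d : Fin n => d < c ∧ P d = false ∧ Q d = false).card
      (k + 1 - (univ.filter fun d : Fin n => d ≠ c ∧ (P d ∨ Q d)).card) ≤ dsc k P Q c := by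
  set S := univ.filter fun d : Fin n => d < c ∧ P d = false ∧ Q d = false with hS
  set D := (univ.filter fun d : Fin n => d ≠ c ∧ (P d ∨ Q d)).card with hD
  rw [← card_rank_lt S]
  unfold dsc
  simp only [hQ, Bool.false_eq_true, if_false]
  apply card_le_card
  intro s hs
  rw [mem_filter] at hs
  obtain ⟨hsS, hr⟩ := hs
  have hs1 := hsS
  rw [hS, mem_filter] at hs1
  obtain ⟨-, h1, h2, h3⟩ := hs1
  have e1 : (S.filter fun d => d < s) = univ.filter fun d : Fin n => d < s ∧ ¬ (P d ∨ Q d) := by
    ext d
    simp only [hS, mem_filter, mem_univ, true_and]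
    constructor
    · rintro ⟨⟨a, b, b'⟩, e⟩; exact ⟨e, by simp [b, b']⟩
    · rintro ⟨e, b⟩
      refine ⟨⟨e.trans h1, ?_, ?_⟩, e⟩
      · simpa using fun h => b (Or.inl h)
      · simpa using fun h => b (Or.inr h)
  have e2 := split_lt s (fun d => (P d = true ∨ Q d = true))
  have e3 : D = (univ.filter fun d : Fin n => d < s ∧ (P d ∨ Q d)).card +
      (univ.filter fun d : Fin n => s < d ∧ d ≠ c ∧ (P d ∨ Q d)).card := by
    rw [hD, ← Finset.card_union_of_disjoint]
    · congr 1
      ext d
      simp only [mem_filter, mem_univ, true_and, mem_union]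
      constructor
      · rintro ⟨a, b⟩
        rcases lt_trichotomy d s with h | h | h
        · exact Or.inl ⟨h, b⟩
        · subst h; simp [h2, h3] at b
        · exact Or.inr ⟨h, a, b⟩
      · rintro (⟨a, b⟩ | ⟨a, b, e⟩)
        · exact ⟨(a.trans h1).ne, b⟩
        · exact ⟨b, e⟩
    · rw [Finset.disjoint_left]
      intro d hd hd'
      simp only [mem_filter, mem_univ, true_and] at hd hd'
      exact absurd hd.1 (not_lt.mpr hd'.1.le)
  rw [e1] at hr
  simp only [mem_filter, mem_univ, true_and]
  refine ⟨h1, ?_, h2, h3, ?_⟩ <;> omega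

lemma both_le (k : ℕ) (P Q : Fin n → Bool) (c : Fin n) (hQ : Q c = false) :
    outA k P c + inA k P Q c + (k + 1 - c.val) ≤
      k + 1 + (univ.filter fun d : Fin n => d < c ∧ P d = false ∧ Q d = false).card := by
  set A1 := univ.filter fun s : Fin n => s < c ∧ s.val ≤ k ∧ P s = false with hA1
  set A2 := univ.filter fun s : Fin n => s < c ∧ s.val ≤ k ∧ Q s = false with hA2
  have h1 : outA k P c ≤ A1.card := by
    unfold outA
    apply card_le_card
    intro s hs
    simp only [hA1, mem_filter, mem_univ, true_and] at hs ⊢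
    exact ⟨hs.1, hs.2.1, hs.2.2.1⟩
  have h2 : inA k P Q c ≤ A2.card := by
    unfold inA
    simp only [hQ, Bool.false_eq_true, if_false]
    apply card_le_card
    intro s hs
    simp only [hA2, mem_filter, mem_univ, true_and] at hs ⊢
    exact ⟨hs.1, hs.2.1, hs.2.2.1⟩
  have h3 := card_union_add_card_inter A1 A2
  have h4 : (A1 ∩ A2).card ≤
      (univ.filter fun d : Fin n => d < c ∧ P d = false ∧ Q d = false).card := by
    apply card_le_card
    intro s hs
    rw [mem_inter] at hs
    simp only [hA1, hA2, mem_filter, mem_univ, true_and] at hs ⊢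
    exact ⟨hs.1.1, hs.1.2.2, hs.2.2.2⟩
  have h5 : (A1 ∪ A2).card ≤ c.val := by
    rw [← card_lt_eq c]
    apply card_le_card
    intro s hs
    rw [mem_union] at hs
    simp only [hA1, hA2, mem_filter, mem_univ, true_and] at hs ⊢
    rcases hs with h | h <;> exact h.1
  have h6 : (A1 ∪ A2).card ≤ k + 1 := by
    have : (A1 ∪ A2).image (fun s : Fin n => s.val) ⊆ range (k + 1) := by
      intro x hx
      obtain ⟨s, hs, rfl⟩ := mem_image.mp hx
      rw [mem_union] at hs
      simp only [hA1, hA2, mem_filter, mem_univ, true_and] at hs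
      rw [mem_range]
      rcases hs with h | h <;> omega
    have h7 := card_le_card this
    rwa [card_image_of_injective _ Fin.val_injective, card_range] at h7
  omega

lemma D_le (P Q : Fin n → Bool) (c : Fin n) :
    (univ.filter fun d : Fin n => d ≠ c ∧ (P d ∨ Q d)).card ≤
      (univ.filter fun d : Fin n => d < c ∧ P d).card + inn P Q c := by
  unfold inn
  refine le_trans (card_le_card ?_) (card_union_le _ _)
  intro d hd
  rw [mem_union]
  simp only [mem_filter, mem_univ, true_and] at hd ⊢
  obtain ⟨h1, h2⟩ := hd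
  rcases lt_or_gt_of_ne h1 with h | h
  · rcases h2 with h2 | h2
    · exact Or.inl ⟨h, h2⟩
    · exact Or.inr (Or.inr ⟨h, h2⟩)
  · exact Or.inr (Or.inl ⟨h, h2⟩)

theorem t_END : S_END := by
  intro n k P Q c hP
  have hnew := (nw_add_le k P Q c).trans (card_new_le k P Q c hP)
  have hF1 := outA_le k P c
  set out := (univ.filter fun d : Fin n => d < c ∧ P d).card with hout
  by_cases hQ : Q c = true
  · have h1 : inA k P Q c = 0 := by simp [inA, hQ]
    have h2 : dsc k P Q c = 0 := by simp [dsc, hQ]
    rw [h1, h2]
    omega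
  · have hQ' : Q c = false := by simpa using hQ
    have hF2 := inA_le k P Q c hQ'
    by_cases h0 : nw k P Q (Function.update P c false) Q +
        nw k Q P Q (Function.update P c false) = 0
    · have hd := dsc_ge k P Q c hQ'
      have hb := both_le k P Q c hQ'
      have hD := D_le P Q c
      rw [← hout] at hD
      omega
    · omega

end Pool.Agent.E8helper55.AV
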